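import Pool.Agent.Helper37.OS.Frame

/-!
# OneSided (MP_8bf717_co): the areas of the four caps
-/

set_option autoImplicit false

open MeasureTheory Set

namespace Pool.Agent.Helper37.OS

open Pool.Agent.Helper27.PHU Pool.Agent.Helper37.PH Pool.Agent.Helper61.PH
open Pool.Agent.Helper39.P5

theorem oT_sub' {K : Set (ℝ × ℝ)} (hK : Convex ℝ K) {p q r : ℝ × ℝ} (hp : p ∈ K) (hq : q ∈ K)
    (hr : r ∈ K) : oT p q r ⊆ K := by
  rcases le_or_gt (tr p q r) 0 with h | h
  · rintro z ⟨h1, h2, h3⟩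
    have := tr_sum3 p q r z
    linarith
  · exact oT_sub hK hp hq hr h

theorem vol_oT' (p q r : ℝ × ℝ) : ENNReal.ofReal (tr p q r / 2) ≤ volume (oT p q r) := by
  rcases le_or_gt (tr p q r) 0 with h | h
  · rw [ENNReal.ofReal_of_nonpos (by linarith)]
    exact zero_le
  · exact (vol_oT h).ge

/-- the real volume of the cap of `K` beyond the line `u v` -/
noncomputable def kap (K : Set (ℝ × ℝ)) (u v : ℝ × ℝ) : ℝ := (volume (cap K u v)).toReal

theorem kap_nonneg (K : Set (ℝ × ℝ)) (u v : ℝ × ℝ) : 0 ≤ kap K u v := ENNReal.toReal_nonneg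

theorem cap_ne_top {K : Set (ℝ × ℝ)} (hK : IsBody K) (u v : ℝ × ℝ) : volume (cap K u v) ≠ ⊤ :=
  ((measure_mono inter_subset_left).trans_lt hK.compact.measure_lt_top).ne

/-- one contact point -/
theorem kap_tri {K : Set (ℝ × ℝ)} (hK : IsBody K) {u v z : ℝ × ℝ} (hu : u ∈ K) (hv : v ∈ K)
    (hz : z ∈ K) : -tr u v z / 2 ≤ kap K u v := by
  rcases le_or_gt 0 (tr u v z) with h | h
  · have := kap_nonneg K u v
    linarith
  · have hD : 0 < tr v u z := by rw [tr_swap]; linarith
    have hsub : oT v u z ⊆ cap K u v := by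
      intro w hw
      refine ⟨oT_sub hK.convex hv hu hz hD hw, ?_⟩
      have := hw.1
      rw [tr_swap] at this
      show tr u v w < 0
      linarith
    have h1 := (vol_oT' v u z).trans (measure_mono hsub)
    have h2 := ENNReal.toReal_mono (cap_ne_top hK u v) h1
    rw [ENNReal.toReal_ofReal (by linarith), tr_swap] at h2
    exact h2

/-- two contact points -/
theorem kap_quad {K : Set (ℝ × ℝ)} (hK : IsBody K) {u v z w : ℝ × ℝ} (hu : u ∈ K) (hv : v ∈ K)
    (hz : z ∈ K) (hw : w ∈ K) (h1 : tr u v z ≤ 0) (h2 : tr u v w ≤ 0)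
    (h3 : tr u v z < 0 ∨ tr u v w < 0) : (tr u z w - tr u v w) / 2 ≤ kap K u v := by
  rcases le_or_gt (tr u z w) 0 with h | h
  · have := kap_tri hK hu hv hw
    linarith
  · have hD : 0 ≤ tr u w v := by
      have e : tr u w v = -tr u v w := by simp only [tr_eq]; ring
      rw [e]; linarith
    have e : tr u w v = -tr u v w := by simp only [tr_eq]; ring
    have hs1 : oT u z w ⊆ cap K u v := by
      intro x hx
      refine ⟨oT_sub hK.convex hu hz hw h hx, ?_⟩
      obtain ⟨g1, g2, g3⟩ := hx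
      have b := tr_bary u z w u v x
      rw [tr_self_out] at b
      show tr u v x < 0
      have hneg : tr w u x * tr u v z + tr u z x * tr u v w < 0 := by
        rcases h3 with h3 | h3
        · have m1 := mul_neg_of_pos_of_neg g3 h3
          have m2 := mul_nonpos_of_nonneg_of_nonpos g1.le h2
          linarith
        · have m1 := mul_nonpos_of_nonneg_of_nonpos g3.le h1
          have m2 := mul_neg_of_pos_of_neg g1 h3
          linarith
      have : tr u z w * tr u v x < 0 := by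
        rw [b]; linarith
      by_contra hc
      push Not at hc
      have := mul_nonneg h.le hc
      linarith
    have hs2 : oT u w v ⊆ cap K u v := by
      intro x hx
      refine ⟨oT_sub' hK.convex hu hw hv hx, ?_⟩
      have := hx.2.2
      rw [tr_swap] at this
      show tr u v x < 0
      linarith
    have hd : Disjoint (oT u z w) (oT u w v) := by
      rw [Set.disjoint_left]
      rintro x ⟨-, -, g1⟩ ⟨g2, -, -⟩
      rw [tr_swap] at g1
      linarith
    have h4 : volume (oT u z w ∪ oT u w v) ≤ volume (cap K u v) :=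
      measure_mono (union_subset hs1 hs2)
    rw [measure_union hd (isOpen_oT _ _ _).measurableSet] at h4
    have h5 := (add_le_add (vol_oT' u z w) (vol_oT' u w v)).trans h4
    rw [← ENNReal.ofReal_add (by linarith) (by linarith)] at h5
    have h6 := ENNReal.toReal_mono (cap_ne_top hK u v) h5
    rw [ENNReal.toReal_ofReal (by linarith), e] at h6
    unfold kap
    linarith

theorem disj_oT_cap {K : Set (ℝ × ℝ)} {a b c u v : ℝ × ℝ}
    (ha : 0 ≤ tr u v a) (hb : 0 ≤ tr u v b) (hc : 0 ≤ tr u v c) :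
    Disjoint (oT a b c) (cap K u v) := by
  rw [Set.disjoint_left]
  rintro z hz ⟨-, h1⟩
  have h1 : tr u v z < 0 := h1
  rcases le_or_gt (tr a b c) 0 with h | h
  · obtain ⟨g1, g2, g3⟩ := hz
    have := tr_sum3 a b c z
    linarith
  · exact absurd (oT_nonneg hz h ha hb hc) (not_le.2 h1)

/-- The area of `K` is at least the area of the pentagon plus the areas of the four caps. -/
theorem FR1.area {K : Set (ℝ × ℝ)} {p q r s : ℝ} (h : FR1 K p q r s) :
    (p + q + r + s) / 2 + (kap K (1, 0) (p, q) + kap K (p, q) (0, 1) + kap K (0, 1) (-r, s) +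
      kap K (-r, s) (-1, 0)) ≤ (volume K).toReal := by
  have hq0 := h.q0
  have hq1 := h.q1
  have hs0 := h.s0
  have hs1 := h.s1
  have hpq := h.pq1
  have hrs := h.rs1
  have hp0 := h.p0
  have hr0 := h.r0
  have hK := h.nb.body
  have hm := fun u v => measurableSet_cap hK u v
  -- the linear forms
  have c1 : ∀ z : ℝ × ℝ, tr (1, 0) (p, q) z = (p - 1) * z.2 - q * z.1 + q := by
    intro z; simp only [tr_eq]; ring
  have c2 : ∀ z : ℝ × ℝ, tr (p, q) (0, 1) z = p * (1 - z.2) - (1 - q) * z.1 := by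
    intro z; simp only [tr_eq]; ring
  have c3 : ∀ z : ℝ × ℝ, tr (0, 1) (-r, s) z = r * (1 - z.2) + (1 - s) * z.1 := by
    intro z; simp only [tr_eq]; ring
  have c4 : ∀ z : ℝ × ℝ, tr (-r, s) (-1, 0) z = (r - 1) * z.2 + s * z.1 + s := by
    intro z; simp only [tr_eq]; ring
  -- signs of the first coordinate
  have x1 : ∀ z ∈ cap K (1, 0) (p, q), 0 < z.1 := by
    rintro z ⟨hz, hc⟩
    have hc : tr (1, 0) (p, q) z < 0 := hc
    rw [c1] at hc
    have hy0 := h.lo z hz
    have hy1 := h.top hz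
    have m : 0 ≤ (p - 1 + q) * z.2 := mul_nonneg (by linarith) hy0
    have m2 : 0 ≤ q * (1 - z.2) := mul_nonneg hq0 (by linarith)
    have : 0 < q * z.1 := by nlinarith
    exact (mul_pos_iff_of_pos_left (lt_of_le_of_ne hq0 (by
      rintro rfl
      simp at this))).1 this
  have x2 : ∀ z ∈ cap K (p, q) (0, 1), 0 < z.1 := by
    rintro z ⟨hz, hc⟩
    have hc : tr (p, q) (0, 1) z < 0 := hc
    rw [c2] at hc
    have hy1 := h.top hz
    have m : 0 ≤ p * (1 - z.2) := mul_nonneg hp0 (by linarith)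
    have : 0 < (1 - q) * z.1 := by linarith
    exact (pos_iff_pos_of_mul_pos this).1 (lt_of_le_of_ne (by linarith) (by
      intro h0
      rw [← h0, zero_mul] at this
      exact lt_irrefl _ this))
  have x3 : ∀ z ∈ cap K (0, 1) (-r, s), z.1 < 0 := by
    rintro z ⟨hz, hc⟩
    have hc : tr (0, 1) (-r, s) z < 0 := hc
    rw [c3] at hc
    have hy1 := h.top hz
    have m : 0 ≤ r * (1 - z.2) := mul_nonneg hr0 (by linarith)
    by_contra hx
    push Not at hx
    have := mul_nonneg (sub_nonneg.2 hs1) hx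
    linarith
  have x4 : ∀ z ∈ cap K (-r, s) (-1, 0), z.1 < 0 := by
    rintro z ⟨hz, hc⟩
    have hc : tr (-r, s) (-1, 0) z < 0 := hc
    rw [c4] at hc
    have hy0 := h.lo z hz
    have hy1 := h.top hz
    have m : 0 ≤ (r - 1 + s) * z.2 := mul_nonneg (by linarith) hy0
    have m2 : 0 ≤ s * (1 - z.2) := mul_nonneg hs0 (by linarith)
    by_contra hx
    push Not at hx
    have := mul_nonneg hs0 hx
    nlinarith
  -- disjointness of the caps
  have d12 : Disjoint (cap K (1, 0) (p, q)) (cap K (p, q) (0, 1)) := by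
    rw [Set.disjoint_left]
    rintro z ⟨hz, h1⟩ ⟨-, h2⟩
    have h1 : tr (1, 0) (p, q) z < 0 := h1
    have h2 : tr (p, q) (0, 1) z < 0 := h2
    rw [c1] at h1
    rw [c2] at h2
    have := h.hc z hz
    nlinarith
  have d34 : Disjoint (cap K (0, 1) (-r, s)) (cap K (-r, s) (-1, 0)) := by
    rw [Set.disjoint_left]
    rintro z ⟨hz, h1⟩ ⟨-, h2⟩
    have h1 : tr (0, 1) (-r, s) z < 0 := h1
    have h2 : tr (-r, s) (-1, 0) z < 0 := h2
    rw [c3] at h1
    rw [c4] at h2
    have := h.hb z hz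
    nlinarith
  have dlr : Disjoint (cap K (1, 0) (p, q) ∪ cap K (p, q) (0, 1))
      (cap K (0, 1) (-r, s) ∪ cap K (-r, s) (-1, 0)) := by
    rw [Set.disjoint_left]
    rintro z (hz | hz) (hz' | hz')
    · exact lt_asymm (x1 z hz) (x3 z hz')
    · exact lt_asymm (x1 z hz) (x4 z hz')
    · exact lt_asymm (x2 z hz) (x3 z hz')
    · exact lt_asymm (x2 z hz) (x4 z hz')
  -- the triangles
  have e0 : tr ((-1 : ℝ), (0 : ℝ)) (1, 0) (0, 1) = 2 := by simp only [tr_eq]; norm_num
  have e1 : tr ((1 : ℝ), (0 : ℝ)) (p, q) (0, 1) = p + q - 1 := by simp only [tr_eq]; ring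
  have e2 : tr ((0 : ℝ), (1 : ℝ)) (-r, s) (-1, 0) = r + s - 1 := by simp only [tr_eq]; ring
  set T0 := oT ((-1 : ℝ), (0 : ℝ)) (1, 0) (0, 1) with hT0
  set T1 := oT ((1 : ℝ), (0 : ℝ)) (p, q) (0, 1) with hT1
  set T2 := oT ((0 : ℝ), (1 : ℝ)) (-r, s) (-1, 0) with hT2
  have s0' : T0 ⊆ K := oT_sub' hK.convex h.nb.mA h.nb.mB h.nb.mC
  have s1' : T1 ⊆ K := oT_sub' hK.convex h.nb.mB h.mc h.nb.mC
  have s2' : T2 ⊆ K := oT_sub' hK.convex h.nb.mC h.mb h.nb.mA
  have t01 : Disjoint T0 T1 := by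
    rw [Set.disjoint_left]
    rintro z ⟨-, g1, -⟩ ⟨-, -, g2⟩
    rw [tr_swap] at g2
    linarith
  have t02 : Disjoint T0 T2 := by
    rw [Set.disjoint_left]
    rintro z ⟨-, -, g1⟩ ⟨-, -, g2⟩
    rw [tr_swap] at g2
    linarith
  have t12 : Disjoint T1 T2 := by
    rw [Set.disjoint_left]
    rintro z hz1 hz2
    have g1 := hz1.2.2
    have g2 := hz2.2.2
    have := h.top (s1' hz1)
    simp only [tr_eq] at g1 g2
    linarith
  have vt : ENNReal.ofReal ((p + q + r + s) / 2) ≤ volume (T0 ∪ T1 ∪ T2) := by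
    rw [measure_union (disjoint_union_left.2 ⟨t02, t12⟩) (isOpen_oT _ _ _).measurableSet,
      measure_union t01 (isOpen_oT _ _ _).measurableSet]
    have a0 := vol_oT' ((-1 : ℝ), (0 : ℝ)) (1, 0) (0, 1)
    have a1 := vol_oT' ((1 : ℝ), (0 : ℝ)) (p, q) (0, 1)
    have a2 := vol_oT' ((0 : ℝ), (1 : ℝ)) (-r, s) (-1, 0)
    rw [e0] at a0
    rw [e1] at a1
    rw [e2] at a2
    refine le_trans (le_of_eq ?_) (add_le_add (add_le_add a0 a1) a2)
    rw [← ENNReal.ofReal_add (by norm_num) (by linarith), ← ENNReal.ofReal_add (by linarith)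
      (by linarith)]
    congr 1
    ring
  -- triangles and caps
  have k : ∀ u v : ℝ × ℝ, 0 ≤ tr u v (-1, 0) → 0 ≤ tr u v (1, 0) → 0 ≤ tr u v (0, 1) →
      0 ≤ tr u v (p, q) → 0 ≤ tr u v (-r, s) → Disjoint (T0 ∪ T1 ∪ T2) (cap K u v) := by
    intro u v g1 g2 g3 g4 g5
    exact disjoint_union_left.2 ⟨disjoint_union_left.2 ⟨disj_oT_cap g1 g2 g3,
      disj_oT_cap g2 g4 g3⟩, disj_oT_cap g3 g5 g1⟩
  have hqr : 0 ≤ q * (1 + r - s) := mul_nonneg hq0 (by linarith)
  have hsp : 0 ≤ s * (1 + p - q) := mul_nonneg hs0 (by linarith)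
  have hps : 0 ≤ p * (1 - s) := mul_nonneg hp0 (by linarith)
  have hrq : 0 ≤ r * (1 - q) := mul_nonneg hr0 (by linarith)
  have hpqs : 0 ≤ (p + q - 1) * s := mul_nonneg (by linarith) hs0
  have hrsq : 0 ≤ (r + s - 1) * q := mul_nonneg (by linarith) hq0
  have k1 := k (1, 0) (p, q) (by rw [c1]; simp only; linarith) (by rw [c1]; simp only; linarith)
    (by rw [c1]; simp only; linarith) (by rw [c1]; simp only; linarith)
    (by rw [c1]; simp only; nlinarith)
  have k2 := k (p, q) (0, 1) (by rw [c2]; simp only; linarith) (by rw [c2]; simp only; linarith)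
    (by rw [c2]; simp only; linarith) (by rw [c2]; simp only; linarith)
    (by rw [c2]; simp only; nlinarith)
  have k3 := k (0, 1) (-r, s) (by rw [c3]; simp only; linarith) (by rw [c3]; simp only; linarith)
    (by rw [c3]; simp only; linarith) (by rw [c3]; simp only; nlinarith)
    (by rw [c3]; simp only; linarith)
  have k4 := k (-r, s) (-1, 0) (by rw [c4]; simp only; linarith)
    (by rw [c4]; simp only; linarith) (by rw [c4]; simp only; linarith)
    (by rw [c4]; simp only; nlinarith) (by rw [c4]; simp only; linarith)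
  have hall : Disjoint (T0 ∪ T1 ∪ T2) ((cap K (1, 0) (p, q) ∪ cap K (p, q) (0, 1)) ∪
      (cap K (0, 1) (-r, s) ∪ cap K (-r, s) (-1, 0))) :=
    disjoint_union_right.2 ⟨disjoint_union_right.2 ⟨k1, k2⟩, disjoint_union_right.2 ⟨k3, k4⟩⟩
  have hmC : MeasurableSet ((cap K (1, 0) (p, q) ∪ cap K (p, q) (0, 1)) ∪
      (cap K (0, 1) (-r, s) ∪ cap K (-r, s) (-1, 0))) :=
    ((hm _ _).union (hm _ _)).union ((hm _ _).union (hm _ _))
  have hle : volume ((T0 ∪ T1 ∪ T2) ∪ ((cap K (1, 0) (p, q) ∪ cap K (p, q) (0, 1)) ∪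
      (cap K (0, 1) (-r, s) ∪ cap K (-r, s) (-1, 0)))) ≤ volume K := by
    apply measure_mono
    have cs : ∀ u v, cap K u v ⊆ K := fun u v => inter_subset_left
    exact union_subset (union_subset (union_subset s0' s1') s2')
      (union_subset (union_subset (cs _ _) (cs _ _)) (union_subset (cs _ _) (cs _ _)))
  rw [measure_union hall hmC, measure_union dlr ((hm _ _).union (hm _ _)),
    measure_union d12 (hm _ _), measure_union d34 (hm _ _)] at hle
  have hle2 := (add_le_add vt le_rfl).trans hle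
  have hfin : volume K ≠ ⊤ := hK.compact.measure_lt_top.ne
  have key := ENNReal.toReal_mono hfin hle2
  have t := cap_ne_top hK
  rw [ENNReal.toReal_add ENNReal.ofReal_ne_top (by simp [t]),
    ENNReal.toReal_ofReal (by linarith), ENNReal.toReal_add (by simp [t]) (by simp [t]),
    ENNReal.toReal_add (t _ _) (t _ _), ENNReal.toReal_add (t _ _) (t _ _)] at key
  unfold kap
  linarith

end Pool.Agent.Helper37.OS
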