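import Pool.Agent.Helper39.P5.Area
import Pool.Agent.Helper37.PH.Dual

/-!
# Bodies with a maximal-area inscribed triangle having one side on the boundary (MP_8bf717_co)

Normal form and reduction.
-/

set_option autoImplicit false

open MeasureTheory Set

namespace Pool.Agent.Helper37.OS

open Pool.Agent.Helper27.PHU Pool.Agent.Helper37.PH Pool.Agent.Helper61.PH
open Pool.Agent.Helper83.PHU

/-- The triangle `(-1, 0), (1, 0), (0, 1)` is an inscribed triangle of maximal area, `K` lies above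
its horizontal side, `(p, q)` maximises `x + y` and `(-r, s)` maximises `y - x`. -/
structure FR1 (K : Set (ℝ × ℝ)) (p q r s : ℝ) : Prop where
  nb : NBody K
  lo : ∀ z ∈ K, 0 ≤ z.2
  mc : (p, q) ∈ K
  mb : (-r, s) ∈ K
  hc : ∀ z ∈ K, z.1 + z.2 ≤ p + q
  hb : ∀ z ∈ K, z.2 - z.1 ≤ r + s

namespace FR1

variable {K : Set (ℝ × ℝ)} {p q r s : ℝ}

theorem top (h : FR1 K p q r s) {z : ℝ × ℝ} (hz : z ∈ K) : z.2 ≤ 1 := h.nb.top hz
theorem lft (h : FR1 K p q r s) {z : ℝ × ℝ} (hz : z ∈ K) : -1 ≤ z.1 + z.2 := h.nb.lft hz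
theorem rgt (h : FR1 K p q r s) {z : ℝ × ℝ} (hz : z ∈ K) : z.1 - z.2 ≤ 1 := by
  have := h.nb.rgt hz
  linarith

theorem q0 (h : FR1 K p q r s) : 0 ≤ q := h.lo _ h.mc
theorem q1 (h : FR1 K p q r s) : q ≤ 1 := h.top h.mc
theorem s0 (h : FR1 K p q r s) : 0 ≤ s := h.lo _ h.mb
theorem s1 (h : FR1 K p q r s) : s ≤ 1 := h.top h.mb
theorem pq1 (h : FR1 K p q r s) : 1 ≤ p + q := by
  have := h.hc _ h.nb.mB
  simpa using this
theorem rs1 (h : FR1 K p q r s) : 1 ≤ r + s := by
  have := h.hb _ h.nb.mA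
  simpa using this
theorem p_le (h : FR1 K p q r s) : p ≤ 1 + q := by
  have := h.rgt h.mc
  simp only at this
  linarith
theorem r_le (h : FR1 K p q r s) : r ≤ 1 + s := by
  have := h.lft h.mb
  simp only at this
  linarith
theorem p0 (h : FR1 K p q r s) : 0 ≤ p := by linarith [h.pq1, h.q1]
theorem r0 (h : FR1 K p q r s) : 0 ≤ r := by linarith [h.rs1, h.s1]

/-- mirror image -/
theorem mir (h : FR1 K p q r s) : FR1 (affE LX 0 '' K) r s p q := by
  have hA : ∀ z : ℝ × ℝ, affE LX 0 z = (-z.1, z.2) := by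
    intro z
    rw [affE_apply, sub_zero, LX_apply]
  refine ⟨⟨body_image h.nb.body _, ?_, ?_, ?_, ?_⟩, ?_, ?_, ?_, ?_, ?_⟩
  · exact ⟨_, h.nb.mB, by rw [hA]⟩
  · exact ⟨_, h.nb.mA, by rw [hA]; simp⟩
  · exact ⟨_, h.nb.mC, by rw [hA]; simp⟩
  · rintro _ ⟨x, hx, rfl⟩ _ ⟨y, hy, rfl⟩ _ ⟨z, hz, rfl⟩
    have := h.nb.maxi x hx y hy z hz
    rw [hA, hA, hA]
    have e : cr ((-y.1, y.2) - (-x.1, x.2)) ((-z.1, z.2) - (-x.1, x.2)) =
        -cr (y - x) (z - x) := by
      simp only [cr, Prod.fst_sub, Prod.snd_sub]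
      ring
    rw [e, abs_neg]
    exact this
  · rintro _ ⟨z, hz, rfl⟩
    rw [hA]
    exact h.lo z hz
  · exact ⟨_, h.mb, by rw [hA]; simp⟩
  · exact ⟨_, h.mc, by rw [hA]⟩
  · rintro _ ⟨z, hz, rfl⟩
    rw [hA]
    have := h.hb z hz
    show -z.1 + z.2 ≤ r + s
    linarith
  · rintro _ ⟨z, hz, rfl⟩
    rw [hA]
    have := h.hc z hz
    show z.2 - -z.1 ≤ p + q
    linarith

end FR1

/-- The affine normal form for a given inscribed triangle of maximal area. -/
theorem normal_of {K : Set (ℝ × ℝ)} (hK : IsBody K) {a b c : ℝ × ℝ} (ha : a ∈ K) (hb : b ∈ K)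
    (hc : c ∈ K) (hD : cr (b - a) (c - a) ≠ 0)
    (hall : ∀ p ∈ K, ∀ q ∈ K, ∀ r ∈ K, |cr (q - p) (r - p)| ≤ |cr (b - a) (c - a)|) :
    ∃ (L : (ℝ × ℝ) ≃ₗ[ℝ] (ℝ × ℝ)) (m : ℝ × ℝ), NBody (affE L m '' K) ∧
      affE L m a = (-1, 0) ∧ affE L m b = (1, 0) ∧ affE L m c = (0, 1) := by
  set u : ℝ × ℝ := b - a with hu
  set w : ℝ × ℝ := c - a with hw
  set D : ℝ := cr u w with hDd
  have hD' : D = u.1 * w.2 - u.2 * w.1 := rfl
  set M : Matrix (Fin 2) (Fin 2) ℝ :=
    !![(2 * w.2 - u.2) / D, (u.1 - 2 * w.1) / D; -u.2 / D, u.1 / D] with hM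
  set L0 : (ℝ × ℝ) →ₗ[ℝ] (ℝ × ℝ) :=
    Matrix.toLin (Module.Basis.finTwoProd ℝ) (Module.Basis.finTwoProd ℝ) M with hL0
  have hL0a : ∀ x : ℝ × ℝ, L0 x =
      ((2 * cr x w + cr u x) / D, cr u x / D) := by
    intro x
    rw [hL0, hM, Matrix.toLin_finTwoProd_apply]
    ext
    · show (2 * w.2 - u.2) / D * x.1 + (u.1 - 2 * w.1) / D * x.2 =
        (2 * (x.1 * w.2 - x.2 * w.1) + (u.1 * x.2 - u.2 * x.1)) / D
      ring
    · show -u.2 / D * x.1 + u.1 / D * x.2 = (u.1 * x.2 - u.2 * x.1) / D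
      ring
  have hdet : LinearMap.det L0 = 2 / D := by
    rw [hL0, LinearMap.det_toLin, hM, Matrix.det_fin_two_of]
    field_simp
    rw [hD']
    ring
  have hdet0 : LinearMap.det L0 ≠ 0 := by
    rw [hdet]; exact div_ne_zero two_ne_zero hD
  set L : (ℝ × ℝ) ≃ₗ[ℝ] (ℝ × ℝ) := L0.equivOfDetNeZero hdet0 with hL
  have hLa : ∀ x, L x = ((2 * cr x w + cr u x) / D, cr u x / D) := fun x => hL0a x
  set m : ℝ × ℝ := a + (1 / 2 : ℝ) • u with hm
  have hA : ∀ q : ℝ × ℝ, affE L m q =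
      (-1 + (2 * cr (q - a) w + cr u (q - a)) / D, cr u (q - a) / D) := by
    intro q
    rw [affE_apply, hLa]
    ext
    · simp only [cr, hm, Prod.fst_sub, Prod.snd_sub, Prod.fst_add, Prod.snd_add, Prod.smul_fst,
        Prod.smul_snd, smul_eq_mul]
      field_simp
      rw [hD']
      ring
    · simp only [cr, hm, Prod.fst_sub, Prod.snd_sub, Prod.fst_add, Prod.snd_add, Prod.smul_fst,
        Prod.smul_snd, smul_eq_mul]
      ring
  have i1 : affE L m a = (-1, 0) := by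
    rw [hA, sub_self]
    simp [cr]
  have i2 : affE L m b = (1, 0) := by
    rw [hA, ← hu]
    have e1 : cr u w = D := rfl
    have e2 : cr u u = 0 := by unfold cr; ring
    rw [e1, e2]
    ext
    · show -1 + (2 * D + 0) / D = 1
      field_simp
      ring
    · simp
  have i3 : affE L m c = (0, 1) := by
    rw [hA, ← hw]
    have e1 : cr w w = 0 := by unfold cr; ring
    have e2 : cr u w = D := rfl
    rw [e1, e2]
    ext
    · show -1 + (2 * 0 + D) / D = 0
      field_simp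
      ring
    · show D / D = 1
      exact div_self hD
  refine ⟨L, m, ⟨body_image hK _, ⟨a, ha, i1⟩, ⟨b, hb, i2⟩, ⟨c, hc, i3⟩, ?_⟩, i1, i2, i3⟩
  rintro _ ⟨p, hp, rfl⟩ _ ⟨q, hq, rfl⟩ _ ⟨r, hr, rfl⟩
  have h1 := hall p hp q hq r hr
  have h2 : cr (affE L m q - affE L m p) (affE L m r - affE L m p) =
      2 / D * cr (q - p) (r - p) := by
    rw [hA, hA, hA]
    simp only [cr, Prod.fst_sub, Prod.snd_sub]
    field_simp
    rw [hD']
    ring
  rw [h2, abs_mul, abs_div, abs_two]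
  have h3 : 0 < |D| := abs_pos.2 hD
  have h4 : 2 / |D| * |cr (q - p) (r - p)| ≤ 2 / |D| * |D| :=
    mul_le_mul_of_nonneg_left h1 (by positivity)
  rwa [div_mul_cancel₀ _ h3.ne'] at h4

/-- If the horizontal side is on the boundary, the body lies above it. -/
theorem lo_of_frontier {K : Set (ℝ × ℝ)} (h : NBody K)
    (hf : ∀ x : ℝ, -1 < x → x < 1 → (x, (0 : ℝ)) ∉ interior K) : ∀ z ∈ K, 0 ≤ z.2 := by
  intro z hz
  by_contra hneg
  push Not at hneg
  have h1 := h.lft hz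
  have h2 := h.rgt hz
  -- the point of the segment from `(0, 1)` to `z` on the axis
  set t : ℝ := 1 / (1 - z.2) with ht
  have hpos : 0 < 1 - z.2 := by linarith
  have ht0 : 0 < t := by positivity
  set x0 : ℝ := t * z.1 with hx0
  have hx1 : -1 < x0 := by
    rw [hx0, ht, one_div, inv_mul_eq_div, lt_div_iff₀ hpos]
    linarith
  have hx2 : x0 < 1 := by
    rw [hx0, ht, one_div, inv_mul_eq_div, div_lt_iff₀ hpos]
    linarith
  apply hf x0 hx1 hx2
  -- two open triangles and the segment: use the interior of the hull of three points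
  have hc := h.body.convex
  -- the open set described by four inequalities is contained in K
  set U : Set (ℝ × ℝ) := {w | w.2 < 1 + (w.1 - 0) ∧ w.2 < 1 - w.1 ∧
    0 < (z.1 + 1) * w.2 - z.2 * (w.1 + 1) ∧ 0 < (1 - z.1) * w.2 - z.2 * (1 - w.1)} with hU
  have hUo : IsOpen U := by
    have c1 : IsOpen {w : ℝ × ℝ | w.2 < 1 + (w.1 - 0)} :=
      isOpen_lt (by fun_prop) (by fun_prop)
    have c2 : IsOpen {w : ℝ × ℝ | w.2 < 1 - w.1} := isOpen_lt (by fun_prop) (by fun_prop)
    have c3 : IsOpen {w : ℝ × ℝ | 0 < (z.1 + 1) * w.2 - z.2 * (w.1 + 1)} :=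
      isOpen_lt (by fun_prop) (by fun_prop)
    have c4 : IsOpen {w : ℝ × ℝ | 0 < (1 - z.1) * w.2 - z.2 * (1 - w.1)} :=
      isOpen_lt (by fun_prop) (by fun_prop)
    exact c1.inter (c2.inter (c3.inter c4))
  refine mem_interior.2 ⟨U, ?_, hUo, ?_⟩
  · rintro w ⟨w1, w2, w3, w4⟩
    rcases le_or_gt 0 w.2 with h0 | h0
    · -- in the triangle
      have e : w = w.2 • ((0 : ℝ), (1 : ℝ)) + (1 - w.2) •
          (((1 - w.1 - w.2) / (2 * (1 - w.2))) • ((-1 : ℝ), (0 : ℝ)) +
            ((1 + w.1 - w.2) / (2 * (1 - w.2))) • ((1 : ℝ), (0 : ℝ))) := by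
        have : 1 - w.2 ≠ 0 := by
          have : 0 < 1 - w.2 := by linarith
          exact this.ne'
        ext
        · simp only [Prod.fst_add, Prod.smul_fst, smul_eq_mul]
          field_simp
          ring
        · simp only [Prod.snd_add, Prod.smul_snd, smul_eq_mul]
          ring
      have hp : 0 < 1 - w.2 := by linarith
      rw [e]
      refine hc h.mC (hc h.mA h.mB ?_ ?_ ?_) h0 (by linarith) (by ring)
      · exact div_nonneg (by linarith) (by linarith)
      · exact div_nonneg (by linarith) (by linarith)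
      · field_simp
        ring
    · -- below: in the triangle with vertices (-1,0), (1,0), z
      have hz2 : z.2 ≠ 0 := hneg.ne
      set γ : ℝ := w.2 / z.2 with hγ
      have hγ0 : 0 < γ := div_pos_of_neg_of_neg h0 hneg
      have hγz : γ * z.2 = w.2 := by rw [hγ]; field_simp
      have k3 : 0 < (w.1 + 1) - γ * (z.1 + 1) := by
        have e : (z.1 + 1) * w.2 - z.2 * (w.1 + 1) = -z.2 * ((w.1 + 1) - γ * (z.1 + 1)) := by
          rw [← hγz]; ring
        rw [e] at w3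
        exact (mul_pos_iff_of_pos_left (by linarith)).1 w3
      have k4 : 0 < (1 - w.1) - γ * (1 - z.1) := by
        have e : (1 - z.1) * w.2 - z.2 * (1 - w.1) = -z.2 * ((1 - w.1) - γ * (1 - z.1)) := by
          rw [← hγz]; ring
        rw [e] at w4
        exact (mul_pos_iff_of_pos_left (by linarith)).1 w4
      have hγ1 : 0 < 1 - γ := by
        have : 0 < 2 * (1 - γ) := by linarith
        linarith
      have e : w = γ • z + (1 - γ) •
          ((((1 - w.1) - γ * (1 - z.1)) / (2 * (1 - γ))) • ((-1 : ℝ), (0 : ℝ)) +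
            (((w.1 + 1) - γ * (z.1 + 1)) / (2 * (1 - γ))) • ((1 : ℝ), (0 : ℝ))) := by
        have hne := hγ1.ne'
        ext
        · simp only [Prod.fst_add, Prod.smul_fst, smul_eq_mul]
          field_simp
          ring
        · simp only [Prod.snd_add, Prod.smul_snd, smul_eq_mul]
          rw [hγz]
          ring
      rw [e]
      refine hc hz (hc h.mA h.mB ?_ ?_ ?_) hγ0.le hγ1.le (by ring)
      · exact div_nonneg k4.le (by linarith)
      · exact div_nonneg k3.le (by linarith)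
      · field_simp
        ring
  · refine ⟨?_, ?_, ?_, ?_⟩
    · show (0 : ℝ) < 1 + (x0 - 0)
      linarith
    · show (0 : ℝ) < 1 - x0
      linarith
    · show (0 : ℝ) < (z.1 + 1) * 0 - z.2 * (x0 + 1)
      have : 0 < -z.2 * (x0 + 1) := mul_pos (by linarith) (by linarith)
      linarith
    · show (0 : ℝ) < (1 - z.1) * 0 - z.2 * (1 - x0)
      have : 0 < -z.2 * (1 - x0) := mul_pos (by linarith) (by linarith)
      linarith

/-- `Cov` bounds `hstar`. -/
theorem hstar_le_of_cov {K : Set (ℝ × ℝ)} {V : ℝ} (h : Cov K V) :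
    hstar K ≤ ENNReal.ofReal V := by
  apply ENNReal.le_of_forall_pos_le_add
  intro ε hε _
  obtain ⟨P, hP, hsub, hle⟩ := h ε hε
  rw [ENNReal.ofReal_coe_nnreal] at hle
  refine le_trans ?_ hle
  unfold hstar
  exact iInf₂_le P ⟨hP, hsub⟩

/-- Reduction to the normal form. -/
theorem reduce {C : ℝ} (hC : 0 ≤ C)
    (H : ∀ (K : Set (ℝ × ℝ)) (p q r s : ℝ), FR1 K p q r s → Cov K (C * (volume K).toReal))
    {K : Set (ℝ × ℝ)} (hK : IsBody K) {a b c : ℝ × ℝ} (ha : a ∈ K) (hb : b ∈ K) (hc : c ∈ K)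
    (hall : ∀ p ∈ K, ∀ q ∈ K, ∀ r ∈ K, |cr (q - p) (r - p)| ≤ |cr (b - a) (c - a)|)
    (hf : segment ℝ a b ⊆ frontier K) :
    hstar K ≤ ENNReal.ofReal C * volume K := by
  have hD : cr (b - a) (c - a) ≠ 0 := by
    obtain ⟨a', ha', b', hb', c', hc', hD', -⟩ := exists_max_triangle hK
    intro h0
    have := hall a' ha' b' hb' c' hc'
    rw [h0, abs_zero] at this
    exact hD' (abs_eq_zero.1 (le_antisymm this (abs_nonneg _)))
  obtain ⟨L, m, hN, i1, i2, i3⟩ := normal_of hK ha hb hc hD hall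
  set A := affE L m with hA
  have hfr : ∀ x : ℝ, -1 < x → x < 1 → (x, (0 : ℝ)) ∉ interior (A '' K) := by
    intro x h1 h2 hx
    have e1 : interior (A '' K) = A '' interior K :=
      (A.toHomeomorphOfFiniteDimensional.image_interior K).symm
    rw [e1] at hx
    obtain ⟨y, hy, hyx⟩ := hx
    have e2 : A (((1 - x) / 2) • a + ((1 + x) / 2) • b) = (x, 0) := by
      have e3 : ((1 - x) / 2) • a + ((1 + x) / 2) • b = AffineMap.lineMap a b ((1 + x) / 2) := by
        rw [AffineMap.lineMap_apply_module]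
        congr 2
        ring
      rw [e3]
      have e4 := A.toAffineMap.apply_lineMap a b ((1 + x) / 2)
      have e5 : A (AffineMap.lineMap a b ((1 + x) / 2)) =
          AffineMap.lineMap (A a) (A b) ((1 + x) / 2) := e4
      rw [e5, i1, i2, AffineMap.lineMap_apply_module]
      ext
      · simp only [Prod.fst_add, Prod.smul_fst, smul_eq_mul]
        ring
      · simp
    have e6 : y = ((1 - x) / 2) • a + ((1 + x) / 2) • b := A.injective (by rw [hyx, e2])
    have h3 : y ∈ segment ℝ a b := by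
      rw [e6]
      exact ⟨_, _, by linarith, by linarith, by ring, rfl⟩
    exact (hf h3).2 hy
  have hlo := lo_of_frontier hN hfr
  have hcpt : IsCompact (A '' K) := hN.body.compact
  have hne : (A '' K).Nonempty := ⟨_, hN.mA⟩
  obtain ⟨zc, hzc, hcm⟩ := hcpt.exists_isMaxOn hne
    (f := fun z : ℝ × ℝ => z.1 + z.2) (by fun_prop)
  obtain ⟨zb, hzb, hbm⟩ := hcpt.exists_isMaxOn hne
    (f := fun z : ℝ × ℝ => z.2 - z.1) (by fun_prop)
  have hF : FR1 (A '' K) zc.1 zc.2 (-zb.1) zb.2 := by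
    refine ⟨hN, hlo, hzc, by simpa using hzb, fun z hz => hcm hz, fun z hz => ?_⟩
    have : z.2 - z.1 ≤ zb.2 - zb.1 := hbm hz
    linarith
  have hcov := H _ _ _ _ _ hF
  have hvol : (volume (A '' K)).toReal =
      |LinearMap.det (L : (ℝ × ℝ) →ₗ[ℝ] (ℝ × ℝ))| * (volume K).toReal := by
    rw [hA, volume_affE, ENNReal.toReal_mul, ENNReal.toReal_ofReal (abs_nonneg _)]
  rw [hvol] at hcov
  have hcov' : Cov K (C * (volume K).toReal) := by
    apply Cov_affE L m
    have e : |LinearMap.det (L : (ℝ × ℝ) →ₗ[ℝ] (ℝ × ℝ))| * (C * (volume K).toReal) =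
        C * (|LinearMap.det (L : (ℝ × ℝ) →ₗ[ℝ] (ℝ × ℝ))| * (volume K).toReal) := by ring
    rw [e]
    exact hcov
  refine (hstar_le_of_cov hcov').trans (le_of_eq ?_)
  rw [ENNReal.ofReal_mul hC, ENNReal.ofReal_toReal hK.compact.measure_lt_top.ne]

end Pool.Agent.Helper37.OS
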